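import Pool.Agent.Lib.MP_e3f158_nt.CL.Fin

/-!
# MP_e3f158_nt: type `(a, 0)`, almost all integers of a residue class

(1) For `1 ≤ W ≤ log log X` at most `C (log log log X) X / W` of the `n ∈ (X, 2 X]` are such that no
even integer in `(n, n + W]` has a representation of type `(a, 0)`; here `C` does not depend on `a`.

Let `a, A, B ≥ 0`, let `X` be large, `1 ≤ z ≤ (log X) / 3` and let `Q` be the product of the primes `≤ z`.
Let `Nh a X Q h` be the number of `a`-primes `r`, `3 ≤ r ≤ X / 2`, with `gcd (h - r, Q) = 1`.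

(2) Apart from at most `Q / (log X)^B` classes (none if `Q < (log X)^B`), for every class `h` mod `Q`
with `Nh ≥ X / (log X)^A` and all `0 < δ < 1`, all but at most `C (log log X) / (δ² z) · X / Q` of the
`n ∈ (X, 2 X]`, `n ≡ h` mod `Q` (`C` depends on `a` and `A` only), are even, have a representation of type `(a, 0)`, and the number of
representations `n = r + p` with a prime `p` and such an `a`-prime `r` is at least `1 - δ` and at
most `1 + δ` times `Q Nh / (φ(Q) log X)`.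

(3) At least `(1 - δ) φ(Q)` of the classes have `Nh ≥ δ φ(Q) N / Q`, where `N` is the number of all
these `a`-primes. (For `h = 0` one has `Nh = N` up to the `r ≤ z`.)

-/

set_option autoImplicit false

namespace Pool.Agent.Results.MP_e3f158_nt.AlmostAllInClasses

open Pool.Agent.Lib.MP_e3f158_nt

open Classical in
/-- The number of `a`-primes `r`, `3 ≤ r ≤ X / 2`, such that `h - r` is coprime to `Q`. -/
noncomputable def Nh (a X Q h : ℕ) : ℕ :=
  ((Finset.Icc 3 (X / 2)).filter fun r : ℕ => (∃ x : ℕ, 1 ≤ x ∧ ipr a x = r) ∧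
    Int.gcd ((h : ℤ) - r) Q = 1).card

open Classical in
/-- The number of representations `n = r + p` with a prime `p` and an `a`-prime `r`,
`3 ≤ r ≤ X / 2`. -/
noncomputable def reps (a X n : ℕ) : ℕ :=
  ((Finset.Icc 3 (X / 2)).filter fun r : ℕ => (∃ x : ℕ, 1 ≤ x ∧ ipr a x = r) ∧ (n - r).Prime).card

/-- `Q Nh / (φ(Q) log X)`, the expected number of representations. -/
noncomputable def EE (a X Q h : ℕ) : ℝ :=
  (Q : ℝ) * (Nh a X Q h : ℝ) / ((Nat.totient Q : ℝ) * Real.log X)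

theorem result :
    (∃ C : ℝ, 0 < C ∧ ∀ a : ℕ, ∀ᶠ X : ℕ in Filter.atTop, ∀ W : ℕ, 1 ≤ W →
      (W : ℝ) ≤ Real.log (Real.log X) →
      (Set.ncard {n : ℕ | X < n ∧ n ≤ 2 * X ∧ ¬ ∃ m : ℕ, n < m ∧ m ≤ n + W ∧ Even m ∧
        HasRep a 0 m} : ℝ) ≤ C * Real.log (Real.log (Real.log X)) / W * X) ∧
    (∀ a A : ℕ, ∃ C : ℝ, 0 < C ∧ ∀ B : ℕ, ∀ᶠ X : ℕ in Filter.atTop,
      ∀ z : ℕ, 1 ≤ z → (z : ℝ) ≤ Real.log X / 3 →
      ∃ S : Finset ℕ, (S.card : ℝ) ≤ (primorial z : ℝ) / (Real.log X) ^ B ∧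
        ∀ h : ℕ, h < primorial z → h ∉ S →
          (X : ℝ) / (Real.log X) ^ A ≤ Nh a X (primorial z) h → ∀ δ : ℝ, 0 < δ → δ < 1 →
          (Set.ncard {n : ℕ | X < n ∧ n ≤ 2 * X ∧ n ≡ h [MOD primorial z] ∧
            ¬ (Even n ∧ HasRep a 0 n ∧
              |(reps a X n : ℝ) - EE a X (primorial z) h| ≤ δ * EE a X (primorial z) h)} : ℝ) ≤
            C * Real.log (Real.log X) / (δ ^ 2 * z) * ((X : ℝ) / primorial z)) ∧
    (∀ a X Q : ℕ, 0 < Q → ∀ δ : ℝ, 0 ≤ δ →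
      (1 - δ) * (Nat.totient Q : ℝ) ≤ (Set.ncard {h : ℕ | h < Q ∧
        δ * (Nat.totient Q : ℝ) * (Nh a X 1 0 : ℝ) ≤ (Q : ℝ) * (Nh a X Q h : ℝ)} : ℝ)) :=
  ⟨CL.windows_a, CL.classes, CL.many_classes⟩

end Pool.Agent.Results.MP_e3f158_nt.AlmostAllInClasses
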