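import Pool.Agent.Lib.MP_e3f158_nt.SN.Final

/-!
# MP_e3f158_nt: windows with an even integer of type `(a, b)`, and sums of few such integers

Let `m = min a b`. A positive proportion of all `n ≤ N` is followed within `(log log N)^(m+1)` by an even
integer of type `(a, b)` (within `log log log log N` if `m = 0`), and at least
`c N / ((log log N)^m (log log log N)^3)` of the even integers up to `N` are themselves of type `(a, b)`.

Hence (Schnirelmann) EVERY `n` is, up to `max K (log_j n)`, a sum of at most `K j` even integers of type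
`(a, b)`, for every `j` (`log_j` is the `j`-fold iterate of `Nat.log 2`); every `n ≥ K` that is a multiple
of the greatest common divisor of these integers is a sum of at most `K log* n` of them; and every
`n ≥ K` is a sum of at most `K log* n` `a`-primes. Here `log* n` is the least `k` with `n ≤ tow k`,
`tow 0 = 1`, `tow (k + 1) = 2 ^ tow k`.
-/

namespace Pool.Agent.Results.MP_e3f158_nt.DensityAllTypes

open Pool.Agent.Lib.MP_e3f158_nt
open Pool.Agent.Lib.MP_e3f158_nt.SN

/-- For all `a`, `b`: (1) there is `c > 0` such that for all large `N` and all `W` at least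
`c N min (1, ρ)` of the `n ≤ N` have an even integer of type `(a, b)` in `[n, n + W]`; here, with
`m = min a b`, `ρ = (W + 1) / log log log log N` if `m = 0` and
`ρ = (W + 1) / (log log N) ^ (m + 1) + 1 / ((log log N) ^ m (log log log N) ^ 3)` if `m ≥ 1`.
(2) There is `K` such that for all `j`, `n` some `s` with `s ≤ n ≤ s + max K (log_j n)` is a sum of at
most `K j` even integers of type `(a, b)`; every multiple `n ≥ K` of their greatest common divisor is a
sum of at most `K log* n` of them; every `n ≥ K` is a sum of at most `K log* n` `a`-primes. -/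
theorem result (a b : ℕ) : (∃ c : ℝ, 0 < c ∧ ∀ᶠ N : ℕ in Filter.atTop, ∀ W : ℕ,
    c * N * min 1 (if min a b = 0 then ((W : ℝ) + 1) / Real.log (Real.log (Real.log (Real.log N)))
      else ((W : ℝ) + 1) / (Real.log (Real.log N)) ^ (min a b + 1) +
        1 / ((Real.log (Real.log N)) ^ (min a b) * (Real.log (Real.log (Real.log N))) ^ 3)) ≤
      (Set.ncard {n : ℕ | 1 ≤ n ∧ n ≤ N ∧ ∃ m, n ≤ m ∧ m ≤ n + W ∧ Even m ∧ HasRep a b m} : ℝ)) ∧
    (∃ K : ℕ,
      (∀ j n : ℕ, ∃ s : ℕ, SumOf {m | Even m ∧ HasRep a b m} (K * j) s ∧ s ≤ n ∧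
        n ≤ s + max K ((Nat.log 2)^[j] n)) ∧
      (∀ k n : ℕ, Nat.setGcd {m | Even m ∧ HasRep a b m} ∣ n → K ≤ n → n ≤ tow k →
        SumOf {m | Even m ∧ HasRep a b m} (K * k) n) ∧
      (∀ k n : ℕ, K ≤ n → n ≤ tow k → SumOf {p | ∃ x, 1 ≤ x ∧ p = ipr a x} (K * k) n)) :=
  ⟨windows_all a b, sums_all a b⟩

end Pool.Agent.Results.MP_e3f158_nt.DensityAllTypes
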