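import Pool.Agent.Lib.MP_e3f158_nt.BSR.PortM
import Pool.Agent.Lib.MP_e3f158_nt.BSR.PortR
import Pool.Agent.Lib.MP_dd84fd_nt.QZ.QMain
import Pool.Agent.Lib.MP_dd84fd_nt.RZ.TopS

/-!
# MP_e3f158_nt: `X^(1/7 + ε)` exceptions to type `(0,0)` outside boundedly many moduli

`reps 0 0 n` is the number of representations of `n` of type `(0,0)`, that is, as an ordered sum
of two different primes, `S` is the singular series and `J(n) = Σ_{2≤m≤n-2} 1/(log m log(n-m))`;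
`n` is good if it has a representation of type `(0,0)` and the number of these is at least
`S(n) J(n) / 40 - 1` and at most `2 S(n) J(n)`.

For every `ε > 0` there is `M` such that for all `1/7 ≤ θ ≤ 1`, `K` and all large `X`:

(1) for all but at most `X^(θ+ε)` of the `n ≤ X`, for every `W ≤ X - n`, at most
`M + W/(log X)^K` of the even `m` in `[n, n+W]` are not good; and in every interval
`[n, n+W]`, `1 ≤ n`, `n + W ≤ X`, `W ≥ X^(θ+ε)`, at most `W/(log X)^K` of them;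

(2) there is a set `D` of at most `M` moduli `d`, `(log X)^K ≤ d ≤ X^(1-θ)`, such that at most
`X^(θ+ε)` of the even numbers `X/2 < n ≤ X` which are divisible by no `d ∈ D` are not good.  Each
`d` is `r/h` with `h ≤ M`, `r` the conductor of a primitive character whose `L`-function has a
zero `ρ` with `Re ρ ≥ 1 - M log log X / log X`, `|Im ρ| ≤ (log X)^M`; at most one `d ∈ D` is less
than `X^(1/M)`, then the character is real and has a real zero `≥ 1 - M / log X`; for arbitrarily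
large `X` there is no `d ∈ D` less than `X^(1/M)`;

(3) at most `X^(θ+ε)` of the numbers `2 p`, `p ≤ X` prime, are not good, at most `X^(θ+ε)` members
of every set of even numbers `n ≤ X` with `gcd(n, m) < (log X)^K` for `n ≠ m`, and at most
`X^(θ+ε)` of the even `X/2 < n ≤ X` with a prime factor `p > X/(log X)^K`, or `p > X^(1-1/M)` if no
`d ∈ D`, `d < X^(1/M)`, divides `n`.
-/

set_option autoImplicit false

namespace Pool.Agent.Results.MP_e3f158_nt.GoldbachOneSeventh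

open Pool.Agent.Lib.MP_e3f158_nt

/-- the number of representations `(x, y)` of type `(a, b)` of `n` -/
noncomputable def reps (a b n : ℕ) : ℕ :=
  Set.ncard {v : ℕ × ℕ | 1 ≤ v.1 ∧ 1 ≤ v.2 ∧ ipr a v.1 + ipr b v.2 = n ∧ ipr a v.1 ≠ ipr b v.2}

/-- the twin prime constant `∏_{p > 2} (1 - 1/(p-1)²)` -/
noncomputable def twinConstant : ℝ :=
  ∏' p : {p : ℕ // p.Prime ∧ 2 < p}, (1 - 1 / (((p : ℕ) : ℝ) - 1) ^ 2)

/-- the singular series for `n`, `n` even -/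
noncomputable def S (n : ℕ) : ℝ :=
  2 * twinConstant * ∏ p ∈ n.primeFactors.filter (fun p => 2 < p), ((p : ℝ) - 1) / ((p : ℝ) - 2)

/-- `Σ 1 / (log m log (n-m))` over `2 ≤ m ≤ n-2` -/
noncomputable def J (n : ℕ) : ℝ :=
  ∑ m ∈ Finset.Icc 2 (n - 2), 1 / (Real.log (m : ℝ) * Real.log ((n - m : ℕ) : ℝ))

/-- `n` has a representation of type `(0,0)`, and their number is at least `S(n) J(n) / 40 - 1`
and at most `2 S(n) J(n)` -/
def Good (n : ℕ) : Prop :=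
  HasRep 0 0 n ∧ 1 / 40 * (S n * J n) - 1 ≤ (reps 0 0 n : ℝ) ∧ (reps 0 0 n : ℝ) ≤ 2 * (S n * J n)

/-- `d = r/h`, `1 ≤ h ≤ M`, `r` the conductor of a primitive character `χ` whose `L`-function has
a zero `ρ` with `Re ρ ≥ 1 - M log log X / log X` and `|Im ρ| ≤ (log X)^M`; if `d < X^(1/M)` then `χ`
is real and has a real zero `β`, `1 - M / log X ≤ β < 1` -/
def FromZero (M X d : ℕ) : Prop :=
  ∃ (r h : ℕ) (χ : DirichletCharacter ℂ r), χ.IsPrimitive ∧ 1 ≤ h ∧ h ≤ M ∧ d * h = r ∧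
    (∃ ρ : ℂ, 1 - M * Real.log (Real.log X) / Real.log X ≤ ρ.re ∧ ρ.re < 1 ∧
      |ρ.im| ≤ Real.log X ^ M ∧ ∃ _ : NeZero r, χ.LFunction ρ = 0) ∧
    ((d : ℝ) < (X : ℝ) ^ (1 / (M : ℝ)) → χ ^ 2 = 1 ∧
      ∃ β : ℝ, 1 - M / Real.log X ≤ β ∧ β < 1 ∧ ∃ _ : NeZero r, χ.LFunction β = 0)

theorem fromZero_of {M X d : ℕ} (h : Pool.MP_dd84fd_nt.RZ.QW M X d) : FromZero M X d := by
  obtain ⟨r, k, χ, a1, a2, a3, a4, -, a5, a6⟩ := h
  exact ⟨r, k, χ, a1, a2, a3, a4, a5, a6⟩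

/-- (1), windows: for all but at most `X^(θ+ε)` of the `n ≤ X`, for every `W ≤ X - n`, at most
`M + W/(log X)^K` of the even `m` in `[n, n+W]` are not good; every interval `[n, n+W]` in `[1, X]`
with `W ≥ X^(θ+ε)` contains at most `W/(log X)^K` of them -/
def Windows (θ ε : ℝ) (M K X : ℕ) : Prop :=
  (Set.ncard {n : ℕ | 1 ≤ n ∧ n ≤ X ∧ ∃ W : ℕ, n + W ≤ X ∧ (M : ℝ) + W / Real.log X ^ K <
      (Set.ncard {m : ℕ | n ≤ m ∧ m ≤ n + W ∧ Even m ∧ ¬ Good m} : ℝ)} : ℝ) ≤ (X : ℝ) ^ (θ + ε) ∧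
  ∀ n W : ℕ, 1 ≤ n → n + W ≤ X → (X : ℝ) ^ (θ + ε) ≤ W →
    (Set.ncard {m : ℕ | n ≤ m ∧ m ≤ n + W ∧ Even m ∧ ¬ Good m} : ℝ) ≤ W / Real.log X ^ K

/-- (2), moduli: `D` has at most `M` elements `d`, `(log X)^K ≤ d ≤ X^(1-θ)`, all from zeros, at most
one of them less than `X^(1/M)`; at most `X^(θ+ε)` of the even numbers `X/2 < n ≤ X` which are
divisible by no `d ∈ D` are not good -/
def Moduli (θ ε : ℝ) (M K X : ℕ) (D : Finset ℕ) : Prop :=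
  D.card ≤ M ∧
  (∀ d ∈ D, Real.log X ^ K ≤ (d : ℝ) ∧ (d : ℝ) ≤ (X : ℝ) ^ (1 - θ) ∧ FromZero M X d) ∧
  (∀ d ∈ D, ∀ d' ∈ D, (d : ℝ) < (X : ℝ) ^ (1 / (M : ℝ)) → (d' : ℝ) < (X : ℝ) ^ (1 / (M : ℝ)) →
    d = d') ∧
  (Set.ncard {n : ℕ | X < 2 * n ∧ n ≤ X ∧ Even n ∧ (∀ d ∈ D, ¬ d ∣ n) ∧ ¬ Good n} : ℝ) ≤
    (X : ℝ) ^ (θ + ε)

/-- (3): at most `X^(θ+ε)` of the numbers `2 p`, `p ≤ X` prime, at most `X^(θ+ε)` members of every
set of even numbers in `[1, X]` with pairwise greatest common divisors less than `(log X)^K`, and at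
most `X^(θ+ε)` of the even `X/2 < n ≤ X` with a prime factor `p > X/(log X)^K`, or `p > X^(1-1/M)` if
no `d ∈ D`, `d < X^(1/M)`, divides `n`, are not good -/
def Families (θ ε : ℝ) (M K X : ℕ) (D : Finset ℕ) : Prop :=
  (Set.ncard {p : ℕ | p.Prime ∧ p ≤ X ∧ ¬ Good (2 * p)} : ℝ) ≤ (X : ℝ) ^ (θ + ε) ∧
  (∀ F : Finset ℕ, (∀ n ∈ F, 1 ≤ n ∧ n ≤ X ∧ Even n) →
    (∀ n ∈ F, ∀ m ∈ F, n ≠ m → (Nat.gcd n m : ℝ) < Real.log X ^ K) →
    (Set.ncard {n : ℕ | n ∈ F ∧ ¬ Good n} : ℝ) ≤ (X : ℝ) ^ (θ + ε)) ∧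
  (Set.ncard {n : ℕ | X < 2 * n ∧ n ≤ X ∧ Even n ∧ (∃ p : ℕ, p.Prime ∧ p ∣ n ∧
      ((X : ℝ) / Real.log X ^ K < p ∨ ((X : ℝ) ^ (1 - 1 / (M : ℝ)) < p ∧
        ∀ d ∈ D, (d : ℝ) < (X : ℝ) ^ (1 / (M : ℝ)) → ¬ d ∣ n))) ∧ ¬ Good n} : ℝ) ≤
    (X : ℝ) ^ (θ + ε)

/-- For every `ε > 0` there is `M` such that for all `1/7 ≤ θ ≤ 1` and `K` there are sets of moduli
`D X` with (1), (2), (3) for all large `X`, and for arbitrarily large `X` no `d ∈ D X` is less than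
`X^(1/M)`. -/
theorem result : ∀ ε : ℝ, 0 < ε → ∃ M : ℕ, ∀ θ : ℝ, 1 / 7 ≤ θ → θ ≤ 1 → ∀ K : ℕ,
    ∃ D : ℕ → Finset ℕ,
      (∃ X₀ : ℕ, ∀ X : ℕ, X₀ ≤ X →
        Windows θ ε M K X ∧ Moduli θ ε M K X (D X) ∧ Families θ ε M K X (D X)) ∧
      ∀ X₁ : ℕ, ∃ X : ℕ, X₁ ≤ X ∧ ∀ d ∈ D X, (X : ℝ) ^ (1 / (M : ℝ)) ≤ d := by
  intro ε hε
  obtain ⟨M, hM⟩ := Pool.MP_dd84fd_nt.RZ.top7 Pool.MP_dd84fd_nt.QZ.grQ (ε / 4) (by linarith)
  obtain ⟨N, hN⟩ := BSR.nearM_of (1 / 40) (by norm_num)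
  refine ⟨M, fun θ h1 h2 K => ?_⟩
  obtain ⟨D, ⟨X0, hX0⟩, hD⟩ := hM θ h1 h2 (K + 1)
  obtain ⟨X2, hX2⟩ := BSR.port_r (θ := θ) (ε := ε) (by linarith) hε M K N _ Good
    (fun X d => FromZero M X d) D
    ⟨X0, fun X hX => by
      obtain ⟨c1, c2, c3, c4, c5⟩ := hX0 X hX
      exact ⟨c1, c2, c3, fun d hd => ⟨(c4 d hd).1, (c4 d hd).2.1, fromZero_of (c4 d hd).2.2⟩, c5⟩⟩
    fun n hn hb => hN n hn _ _ le_rfl hb
  exact ⟨D, ⟨X2, hX2⟩, hD⟩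

end Pool.Agent.Results.MP_e3f158_nt.GoldbachOneSeventh
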