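import Pool.Agent.Lib.MP_e3f158_nt.TY.Main

/-!
# MP_e3f158_nt: types `(a, 0)` outside `(log N)^E` thin progressions, exceptions of exponent `1/6`
-/

namespace Pool.Agent.Results.MP_e3f158_nt.ThinOneSixth

open Pool.Agent.Lib.MP_e3f158_nt

/-- A triple `p = (c, q, T)` stands for the arithmetic progression `{c + i q : 0 ≤ i < T}`.

There is an absolute constant `K₀` such that for every `A` there is `E` such that for all `K` and
`θ > 1/6` there is `C` such that for all large `N` there is a family `P` of at most `(log N) ^ E`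
progressions with `1 ≤ q ≤ N ^ (5/6)` and `N ^ (1/6) ≤ T ≤ N / (log N) ^ K` with the following
property. All but at most `N ^ θ` of the integers `n` in `(N, 2 N]` lying in no progression of `P`
satisfy:

* if `n` is even, it has a representation of type `(0, 0)`;

* for every `a ≤ A`, `n` has a representation of type `(a, 0)`, or fewer than `N / (log N) ^ A` of
the `a`-primes `r ≤ N / 2` are such that `n - r` has no prime factor `≤ (log N) ^ C`;

* for every `a ≤ A` there is an even integer of type `(a, 0)` in `(n, n + (log log N) ^ K₀]`. -/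
theorem result : ∃ K₀ : ℕ, ∀ A : ℕ, ∃ E : ℕ, ∀ (K : ℕ) (θ : ℝ), 1 / 6 < θ → ∃ C : ℕ,
    ∀ᶠ N : ℕ in Filter.atTop, ∃ P : Finset (ℤ × ℕ × ℕ),
      (∀ p ∈ P, 1 ≤ p.2.1 ∧ (p.2.1 : ℝ) ≤ (N : ℝ) ^ (5 / 6 : ℝ) ∧
        (N : ℝ) ^ (1 / 6 : ℝ) ≤ (p.2.2 : ℝ) ∧ (p.2.2 : ℝ) ≤ N / Real.log N ^ K) ∧
      (P.card : ℝ) ≤ Real.log N ^ E ∧
      (Set.ncard {n : ℕ | N < n ∧ n ≤ 2 * N ∧
        (∀ p ∈ P, ∀ i : ℕ, i < p.2.2 → (n : ℤ) ≠ p.1 + i * p.2.1) ∧
        ¬ ((Even n → HasRep 0 0 n) ∧ ∀ a ≤ A,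
          (HasRep a 0 n ∨ (Set.ncard {r : ℕ | (∃ x : ℕ, 1 ≤ x ∧ ipr a x = r) ∧ 2 * r ≤ N ∧
              ∀ p : ℕ, p.Prime → p ∣ n - r → Real.log N ^ C < (p : ℝ)} : ℝ) <
            N / Real.log N ^ A) ∧
          ∃ m : ℕ, Even m ∧ n < m ∧ (m : ℝ) ≤ n + Real.log (Real.log N) ^ K₀ ∧
            HasRep a 0 m)} : ℝ) ≤ (N : ℝ) ^ θ := by
  have h := TL.result_g (1 / 6) (1 / 10) 40 (by norm_num) (by norm_num) (by norm_num)
    Pool.MP_e3f158_nt.TY.covY Pool.MP_e3f158_nt.TY.finGY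
  have e : (1 - 1 / 6 : ℝ) = 5 / 6 := by norm_num
  rw [e] at h
  exact h

end Pool.Agent.Results.MP_e3f158_nt.ThinOneSixth
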